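import Pool.Agent.Q276.SV.Fin

/-! The variance asymptotic for intervals centred at `x`, `1 ≤ x ≤ X`, fails for all interval
lengths `H ≥ X ^ (1/2 + ε)`. -/

set_option autoImplicit false

open MeasureTheory Filter Topology

namespace Pool.Agent.Results.MP_2a816b_nt.CentredIntervals

/-- The weighted number of prime powers in the interval of length `H` centred at `x`. -/
noncomputable def psi (x H : ℝ) : ℝ :=
  ∑ᶠ n ∈ {n : ℕ | 1 ≤ n ∧ x - H / 2 ≤ n ∧ (n : ℝ) ≤ x + H / 2}, ArithmeticFunction.vonMangoldt n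

/-- The quotient of the two sides of the conjectured asymptotic formula. -/
noncomputable def quotient (H : ℝ → ℝ) (X : ℝ) : ℝ :=
  ((1 / X) * ∫ x in (1 : ℝ)..X, |psi x (H X) - H X| ^ 2) /
    (H X * (Real.log X - Real.log (H X) -
      (Real.eulerMascheroniConstant + Real.log (2 * Real.pi))))

/-- For every `ε > 0` and every function `H` with `X ^ (1/2 + ε) ≤ H(X) ≤ X ^ (1 - ε)` the quotient of
the two sides of the conjectured formula tends to infinity.  In particular there are `ε > 0` and `H`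
with `X ^ ε < H(X) < X ^ (1 - ε)` for all `X > 1` for which the quotient does not tend to `1`. -/
theorem result :
    (∀ (ε : ℝ) (H : ℝ → ℝ), 0 < ε →
      (∀ᶠ X : ℝ in atTop, X ^ (1 / 2 + ε) ≤ H X ∧ H X ≤ X ^ (1 - ε)) →
      Tendsto (quotient H) atTop atTop) ∧
    ∃ (ε : ℝ) (H : ℝ → ℝ), 0 < ε ∧ (∀ X : ℝ, 1 < X → X ^ ε < H X ∧ H X < X ^ (1 - ε)) ∧
      ¬ Tendsto (quotient H) atTop (𝓝 1) := by
  refine ⟨fun ε H hε hH => Q276.SV.ratio ε hε H hH, ?_⟩
  obtain ⟨ε, H, hε, h1, h2⟩ := Q276.SV.exists_window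
  refine ⟨ε, H, hε, h1, fun h3 => ?_⟩
  exact not_tendsto_nhds_of_tendsto_atTop h2 1 h3

end Pool.Agent.Results.MP_2a816b_nt.CentredIntervals
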