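import Pool.Agent.Q260.LB.D

/-! The lower half of the asymptotic formula for the variance of the primes in short intervals, on
average over the exponents. -/

set_option autoImplicit false

open MeasureTheory Filter Topology Set

namespace Pool.Agent.Results.MP_2a816b_nt.LowerHalfOnAverage

/-- The weighted number of prime powers in the interval of length `H` centred at `x`. -/
noncomputable def psi (x H : ℝ) : ℝ :=
  ∑ᶠ n ∈ {n : ℕ | 1 ≤ n ∧ x - H / 2 ≤ n ∧ (n : ℝ) ≤ x + H / 2}, ArithmeticFunction.vonMangoldt n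

/-- The quotient of the two sides of the conjectured asymptotic formula, with the integral over
`δX ≤ x ≤ X` in place of `1 ≤ x ≤ X`. -/
noncomputable def quotient (δ X H : ℝ) : ℝ :=
  ((1 / X) * ∫ x in (δ * X)..X, |psi x H - H| ^ 2) /
    (H * (Real.log X - Real.log H - (Real.eulerMascheroniConstant + Real.log (2 * Real.pi))))

/-- Let `A ≥ 0` and `0 < δ, ε < 1`.  For every small `a > 0` there is `B` such that for all large `T`
the mean of the quotient at `X = T ^ b`, `H = X / T` over `A ≤ b ≤ B` with the weight `a exp(-ab)` is at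
least `(1 - ε) (1 - δ)`; so the quotient itself is at least `(1 - ε) (1 - δ)` for some `b` in
`[A, B]`. -/
theorem result : ∀ A δ ε : ℝ, 0 ≤ A → 0 < δ → δ < 1 → 0 < ε → ε < 1 → ∃ a₀ : ℝ, 0 < a₀ ∧
    ∀ a : ℝ, 0 < a → a ≤ a₀ → ∃ B T₀ : ℝ, A < B ∧ ∀ T : ℝ, T₀ ≤ T →
      (1 - ε) * (1 - δ) ≤ a * (∫ b in A..B, Real.exp (-(a * b)) * quotient δ (T ^ b) (T ^ b / T)) ∧
      ∃ b ∈ Icc A B, (1 - ε) * (1 - δ) ≤ quotient δ (T ^ b) (T ^ b / T) :=
  fun _ _ _ hA hδ hδ1 hε hε1 => Pool.Agent.Q260.LB.main' hA hδ hδ1 hε hε1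

end Pool.Agent.Results.MP_2a816b_nt.LowerHalfOnAverage
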