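import Pool.Agent.Q152.QH.Kap

/-!
# The variance of the primes in short intervals, for the twists by almost all quadratic characters
-/

set_option autoImplicit false

namespace Pool.Agent.Results.MP_2a816b_nt.QuadraticTwists

open Finset Filter MeasureTheory

/-- the primes in `[x - H / 2, x + H / 2]` -/
noncomputable def win (H x : ℝ) : Finset ℕ :=
  (range (⌊x + H / 2⌋₊ + 1)).filter fun p => p.Prime ∧ x - H / 2 ≤ p

/-- the sum of `g(p) log p (p / m)` over the primes in `[x - H / 2, x + H / 2]`;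
`(p / m)` is the Jacobi symbol -/
noncomputable def S (g : ℕ → ℂ) (m : ℕ) (H x : ℝ) : ℂ :=
  ∑ p ∈ win H x, g p * (Real.log p : ℂ) * ((jacobiSym (p : ℤ) m : ℤ) : ℂ)

/-- the sum of `|g(p)|² log² p` over the primes in `[x - H / 2, x + H / 2]` that do not divide `m` -/
noncomputable def Q (g : ℕ → ℂ) (m : ℕ) (H x : ℝ) : ℝ :=
  ∑ p ∈ (win H x).filter (fun p => ¬ p ∣ m), ‖g p‖ ^ 2 * Real.log p ^ 2

/-- the asymptotic formula with a power saving, up to `X` -/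
def Power (g : ℕ → ℂ) (ε X : ℝ) (m : ℕ) : Prop :=
  ∀ H x₁ x₂ : ℝ, 1 ≤ H → 0 ≤ x₁ → x₁ ≤ x₂ → x₂ + H / 2 ≤ X →
    |∫ x in x₁..x₂, (‖S g m H x‖ ^ 2 - Q g m H x)| ≤ X ^ ε * (H * √(H * (x₂ - x₁ + H)))

/-- the asymptotic formula with powers of the logarithm, up to `X` -/
def Sharp (g : ℕ → ℂ) (C X : ℝ) (m : ℕ) : Prop :=
  ∀ H x₁ x₂ : ℝ, 1 ≤ H → 0 ≤ x₁ → x₁ ≤ x₂ → x₂ + H / 2 ≤ X →
    |∫ x in x₁..x₂, (‖S g m H x‖ ^ 2 - Q g m H x)| ≤ C * (Real.log X ^ 3 * (H * √(H * (x₂ - x₁ + H))))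

open Pool.Agent.Q152.QH Pool.Agent.Q152.QT

/-- the coefficient of a pair -/
noncomputable def co (g : ℕ → ℂ) (t : ℕ × ℕ) : ℝ :=
  2 * ((g t.1 * (Real.log t.1 : ℂ)) * (starRingEnd ℂ) (g t.2 * (Real.log t.2 : ℂ))).re

/-- the pairs of primes `p < p' ≤ N` -/
def prs (N : ℕ) : Finset (ℕ × ℕ) :=
  (((range (N + 1)).filter Nat.Prime) ×ˢ ((range (N + 1)).filter Nat.Prime)).filter fun t => t.1 < t.2

lemma jac_norm_sq (p m : ℕ) (hp : p.Prime) (hm : m ≠ 0) :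
    ‖((jacobiSym (p : ℤ) m : ℤ) : ℂ)‖ ^ 2 = if p ∣ m then 0 else 1 := by
  split_ifs with h
  · have h0 : jacobiSym (p : ℤ) m = 0 := by
      rw [jacobiSym.eq_zero_iff]
      refine ⟨hm, ?_⟩
      rw [Int.gcd_natCast_natCast, Nat.gcd_eq_left h]
      exact hp.one_lt.ne'
    rw [h0]
    simp
  · have hc : Int.gcd (p : ℤ) m = 1 := by
      rw [Int.gcd_natCast_natCast]
      exact (Nat.Prime.coprime_iff_not_dvd hp).2 h
    rcases jacobiSym.eq_one_or_neg_one hc with h1 | h1 <;> rw [h1] <;> simp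

theorem norm_sq_sum (A : Finset ℕ) (a : ℕ → ℝ) (f : ℕ → ℂ) :
    ‖∑ p ∈ A, (a p : ℂ) * f p‖ ^ 2 = ∑ x ∈ A, ∑ y ∈ A, (a x * a y) * (f x * (starRingEnd ℂ) (f y)).re := by
  rw [← Complex.normSq_eq_norm_sq, ← Complex.ofReal_re (Complex.normSq _), ← Complex.mul_conj, map_sum,
    sum_mul_sum, Complex.re_sum]
  refine sum_congr rfl fun x _ => ?_
  rw [Complex.re_sum]
  refine sum_congr rfl fun y _ => ?_
  rw [map_mul, Complex.conj_ofReal]
  have : (a x : ℂ) * f x * ((a y : ℂ) * (starRingEnd ℂ) (f y)) =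
      ((a x * a y : ℝ) : ℂ) * (f x * (starRingEnd ℂ) (f y)) := by
    push_cast
    ring
  rw [this, Complex.re_ofReal_mul]

theorem ind_sq (H : ℝ) (p : ℕ) (x : ℝ) : ind H p x * ind H p x = ind H p x := by
  unfold ind
  split_ifs <;> norm_num

theorem win_eq (H x : ℝ) (N : ℕ) (hN : x + H / 2 < N + 1) :
    win H x = ((range (N + 1)).filter Nat.Prime).filter fun p : ℕ => x - H / 2 ≤ (p : ℝ) ∧ (p : ℝ) ≤ x + H / 2 := by
  unfold win
  rw [filter_filter]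
  ext p
  rw [mem_filter, mem_filter, mem_range, mem_range]
  constructor
  · rintro ⟨h1, h2, h3⟩
    have h4 : (p : ℝ) ≤ x + H / 2 := (Nat.le_floor_iff' h2.ne_zero).1 (by omega)
    have h5 : (p : ℝ) < ((N + 1 : ℕ) : ℝ) := by
      push_cast
      linarith
    exact ⟨by exact_mod_cast h5, h2, h3, h4⟩
  · rintro ⟨h1, h2, h3, h4⟩
    have h5 : p ≤ ⌊x + H / 2⌋₊ := (Nat.le_floor_iff' h2.ne_zero).2 h4
    exact ⟨by omega, h2, h3⟩

/-- the integrand as a sum over pairs -/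
theorem pointwise (g : ℕ → ℂ) (m : ℕ) (hm : m ≠ 0) (H x : ℝ) (N : ℕ) (hN : x + H / 2 < N + 1) :
    ‖S g m H x‖ ^ 2 - Q g m H x =
      ∑ t ∈ prs N, (co g t * (jacobiSym ((t.1 * t.2 : ℕ) : ℤ) m : ℝ)) * (ind H t.1 x * ind H t.2 x) := by
  set f : ℕ → ℂ := fun p => g p * (Real.log p : ℂ) * ((jacobiSym (p : ℤ) m : ℤ) : ℂ) with hf
  set A : Finset ℕ := (range (N + 1)).filter Nat.Prime with hA
  have hS : S g m H x = ∑ p ∈ A, ((ind H p x : ℝ) : ℂ) * f p := by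
    unfold S
    rw [win_eq H x N hN, sum_filter]
    refine sum_congr rfl fun p _ => ?_
    unfold ind
    split_ifs
    · rw [Complex.ofReal_one, one_mul]
    · rw [Complex.ofReal_zero, zero_mul]
  have hQ : Q g m H x = ∑ p ∈ A, (ind H p x * ind H p x) * ‖f p‖ ^ 2 := by
    unfold Q
    rw [win_eq H x N hN, sum_filter, sum_filter]
    refine sum_congr rfl fun p hp => ?_
    rw [hA, mem_filter] at hp
    rw [ind_sq, hf]
    simp only
    rw [norm_mul, norm_mul, mul_pow, mul_pow, jac_norm_sq p m hp.2 hm, Complex.norm_real, Real.norm_eq_abs, sq_abs]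
    unfold ind
    split_ifs <;> ring
  rw [hS, norm_sq_sum A (fun p => ind H p x) f,
    sym_split A (fun p r => ind H p x * ind H r x) (fun p r => mul_comm _ _) f, hQ, add_sub_cancel_left]
  have hP : prs N = (A ×ˢ A).filter fun t => t.1 < t.2 := rfl
  rw [hP]
  refine sum_congr rfl fun t _ => ?_
  unfold co
  rw [hf]
  simp only
  have e1 : g t.1 * (Real.log t.1 : ℂ) * ((jacobiSym (t.1 : ℤ) m : ℤ) : ℂ) *
      (starRingEnd ℂ) (g t.2 * (Real.log t.2 : ℂ) * ((jacobiSym (t.2 : ℤ) m : ℤ) : ℂ)) =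
      ((g t.1 * (Real.log t.1 : ℂ)) * (starRingEnd ℂ) (g t.2 * (Real.log t.2 : ℂ))) *
        ((jacobiSym ((t.1 * t.2 : ℕ) : ℤ) m : ℝ) : ℂ) := by
    rw [map_mul, map_intCast (starRingEnd ℂ), Nat.cast_mul, jacobiSym.mul_left]
    push_cast
    ring
  rw [e1, Complex.re_mul_ofReal]
  ring

/-- the integral as a sum over pairs -/
theorem integral_eq (g : ℕ → ℂ) (m : ℕ) (hm : m ≠ 0) (H x₁ x₂ : ℝ) (hx : x₁ ≤ x₂) (N : ℕ)
    (hN : x₂ + H / 2 < N + 1) :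
    ∫ x in x₁..x₂, (‖S g m H x‖ ^ 2 - Q g m H x) =
      ∑ t ∈ prs N, (co g t * kap x₁ x₂ H t) * (jacobiSym ((t.1 * t.2 : ℕ) : ℤ) m : ℝ) := by
  have h1 : ∫ x in x₁..x₂, (‖S g m H x‖ ^ 2 - Q g m H x) =
      ∫ x in x₁..x₂, ∑ t ∈ prs N,
        (co g t * (jacobiSym ((t.1 * t.2 : ℕ) : ℤ) m : ℝ)) * (ind H t.1 x * ind H t.2 x) := by
    refine intervalIntegral.integral_congr fun x hx' => ?_
    rw [Set.uIcc_of_le hx, Set.mem_Icc] at hx'
    exact pointwise g m hm H x N (by linarith [hx'.2])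
  have hlt : ∀ t ∈ prs N, t.1 ≤ t.2 := fun t ht => (mem_filter.1 ht).2.le
  rw [h1, intervalIntegral.integral_finset_sum]
  · refine sum_congr rfl fun t ht => ?_
    rw [intervalIntegral.integral_const_mul, ind_integral H t (hlt t ht) x₁ x₂ hx]
    ring
  · intro t ht
    exact (ind_int H t (hlt t ht) x₁ x₂).const_mul _

theorem co_le (g : ℕ → ℂ) (hg : ∀ n, ‖g n‖ ≤ 1) (N : ℕ) (t : ℕ × ℕ) (ht : t ∈ prs N) :
    |co g t| ≤ 2 * Real.log N ^ 2 := by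
  unfold prs at ht
  rw [mem_filter, mem_product, mem_filter, mem_filter, mem_range, mem_range] at ht
  have h1 : ∀ n : ℕ, n.Prime → n ≤ N → ‖g n * (Real.log n : ℂ)‖ ≤ Real.log N := by
    intro n hn hnN
    have h0 : 0 ≤ Real.log n := Real.log_natCast_nonneg n
    rw [norm_mul, Complex.norm_real, Real.norm_of_nonneg h0]
    refine (mul_le_of_le_one_left h0 (hg n)).trans (Real.log_le_log ?_ (by exact_mod_cast hnN))
    exact_mod_cast hn.pos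
  unfold co
  rw [abs_mul, abs_two]
  refine mul_le_mul_of_nonneg_left ((Complex.abs_re_le_norm _).trans ?_) two_pos.le
  rw [norm_mul, RCLike.norm_conj, sq]
  exact mul_le_mul (h1 _ ht.1.1.2 (by omega)) (h1 _ ht.1.2.2 (by omega)) (norm_nonneg _)
    (Real.log_natCast_nonneg _)

theorem count_pairs (N : ℕ) (x₁ x₂ H : ℝ) (hx : x₁ ≤ x₂) (hx2 : 0 ≤ x₂) (hH : 0 ≤ H) :
    (((prs N).filter fun t => kap x₁ x₂ H t ≠ 0).card : ℝ) ≤ (x₂ - x₁ + H + 1) * H := by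
  have h1 : ((prs N).filter fun t => kap x₁ x₂ H t ≠ 0).card ≤
      (Icc ⌈x₁ - H / 2⌉₊ ⌊x₂ + H / 2⌋₊ ×ˢ Icc 1 ⌊H⌋₊).card := by
    refine card_le_card_of_injOn (fun t => (t.1, t.2 - t.1)) ?_ ?_
    · intro t ht
      have ht' := mem_filter.1 ht
      have hlt : t.1 < t.2 := (mem_filter.1 ht'.1).2
      obtain ⟨h1, h2, h3⟩ := kap_pos x₁ x₂ H t ht'.2
      have hltR : (t.1 : ℝ) < t.2 := by exact_mod_cast hlt
      have h4 : (t.1, t.2 - t.1) ∈ Icc ⌈x₁ - H / 2⌉₊ ⌊x₂ + H / 2⌋₊ ×ˢ Icc 1 ⌊H⌋₊ := by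
        rw [mem_product, mem_Icc, mem_Icc]
        refine ⟨⟨Nat.ceil_le.2 (by linarith), Nat.le_floor (by linarith)⟩, by simp only; omega, Nat.le_floor ?_⟩
        simp only
        rw [Nat.cast_sub hlt.le]
        linarith
      exact h4
    · intro t ht s hs hts
      have ht' := mem_filter.1 ht
      have hlt : t.1 < t.2 := (mem_filter.1 ht'.1).2
      have hs' := mem_filter.1 hs
      have hls : s.1 < s.2 := (mem_filter.1 hs'.1).2
      simp only [Prod.mk.injEq] at hts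
      ext <;> omega
  rw [card_product, Nat.card_Icc, Nat.card_Icc, Nat.add_sub_cancel] at h1
  have h2 : ((⌊x₂ + H / 2⌋₊ + 1 - ⌈x₁ - H / 2⌉₊ : ℕ) : ℝ) ≤ x₂ - x₁ + H + 1 := by
    rcases Nat.le_total ⌈x₁ - H / 2⌉₊ (⌊x₂ + H / 2⌋₊ + 1) with h | h
    · rw [Nat.cast_sub h]
      push_cast
      have e1 : ((⌊x₂ + H / 2⌋₊ : ℕ) : ℝ) ≤ x₂ + H / 2 := Nat.floor_le (by positivity)
      have e2 : x₁ - H / 2 ≤ ((⌈x₁ - H / 2⌉₊ : ℕ) : ℝ) := Nat.le_ceil _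
      linarith
    · rw [Nat.sub_eq_zero_of_le h, Nat.cast_zero]
      linarith
  have h3 : ((⌊H⌋₊ : ℕ) : ℝ) ≤ H := Nat.floor_le hH
  calc (((prs N).filter fun t => kap x₁ x₂ H t ≠ 0).card : ℝ) ≤
        (((⌊x₂ + H / 2⌋₊ + 1 - ⌈x₁ - H / 2⌉₊) * ⌊H⌋₊ : ℕ) : ℝ) := Nat.cast_le.2 h1
    _ = ((⌊x₂ + H / 2⌋₊ + 1 - ⌈x₁ - H / 2⌉₊ : ℕ) : ℝ) * (⌊H⌋₊ : ℕ) := Nat.cast_mul _ _
    _ ≤ (x₂ - x₁ + H + 1) * H := mul_le_mul h2 h3 (Nat.cast_nonneg _) (by linarith)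

/-- the event for one scale -/
def Good (g : {g : ℕ → ℂ // ∀ n, ‖g n‖ ≤ 1}) (E k N m : ℕ) : Prop :=
  m ≠ 0 → ∀ H x₁ x₂ : ℝ, 1 ≤ H → 0 ≤ x₁ → x₁ ≤ x₂ → x₂ + H / 2 < N + 1 →
    |∫ x in x₁..x₂, (‖S g.1 m H x‖ ^ 2 - Q g.1 m H x)| ≤
      18 * (√((N : ℝ) ^ ((E : ℝ) / k)) * k * Real.log N ^ 2 * (H * √(H * (x₂ - x₁ + H))))

theorem floor_close (x : ℝ) (hx : 0 ≤ x) (M : ℝ) (hM : 0 < M) :
    |x - (⌊x * M⌋₊ : ℕ) / M| ≤ 1 / M ∧ ((⌊x * M⌋₊ : ℕ) : ℝ) / M ≤ x := by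
  have h1 : ((⌊x * M⌋₊ : ℕ) : ℝ) ≤ x * M := Nat.floor_le (by positivity)
  have h2 : x * M < ((⌊x * M⌋₊ : ℕ) : ℝ) + 1 := Nat.lt_floor_add_one _
  have h3 : ((⌊x * M⌋₊ : ℕ) : ℝ) / M ≤ x := by
    rw [div_le_iff₀ hM]
    exact h1
  refine ⟨?_, h3⟩
  rw [abs_of_nonneg (by linarith), sub_le_iff_le_add, ← add_div, le_div_iff₀ hM]
  linarith

open Classical in
theorem good_all (B : ℕ) : ∃ E N₀ : ℕ, ∀ (g : {g : ℕ → ℂ // ∀ n, ‖g n‖ ≤ 1}) (P N k : ℕ), N₀ ≤ N → 1 ≤ k →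
    4 * N ^ (6 * k) ≤ P → (((om P).filter fun q => ¬ Good g E k N q).card : ℝ) ≤ P / (N : ℝ) ^ B := by
  obtain ⟨E, N₀, H⟩ := fam_pair 125 12 B
  refine ⟨E, max N₀ 1, fun g P N k hN hk hP => ?_⟩
  have hN1 : 1 ≤ N := (le_max_right _ _).trans hN
  have hNR : (1 : ℝ) ≤ N := by exact_mod_cast hN1
  have hN0 : (0 : ℝ) < N := by linarith
  have hkR : (1 : ℝ) ≤ k := by exact_mod_cast hk
  set M : ℝ := (N : ℝ) ^ 3 with hM
  have hM1 : 1 ≤ M := one_le_pow₀ hNR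
  have hM0 : 0 < M := by linarith
  set T : Finset (ℕ × ℕ × ℕ) := range (4 * N ^ 4 + 1) ×ˢ range (4 * N ^ 4 + 1) ×ˢ range (4 * N ^ 4 + 1) with hT
  have hTc : T.card ≤ 125 * N ^ 12 := by
    rw [hT, card_product, card_product, card_range]
    have : 1 ≤ N ^ 4 := Nat.one_le_pow _ _ (by omega)
    have : 4 * N ^ 4 + 1 ≤ 5 * N ^ 4 := by omega
    calc (4 * N ^ 4 + 1) * ((4 * N ^ 4 + 1) * (4 * N ^ 4 + 1)) ≤ (5 * N ^ 4) * ((5 * N ^ 4) * (5 * N ^ 4)) := by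
          gcongr
      _ = 125 * N ^ 12 := by ring
  have h1 := H T (fun _ => prs N) (fun t x => co g.1 x * kap ((t.1 : ℝ) / M) ((t.2.1 : ℝ) / M) ((t.2.2 : ℝ) / M) x)
    P N k ((le_max_left _ _).trans hN) hk hTc
    (by
      intro t _ x hx
      unfold prs at hx
      rw [mem_filter, mem_product, mem_filter, mem_filter, mem_range, mem_range] at hx
      exact ⟨hx.1.1.2, hx.1.2.2, hx.2, by omega⟩) hP
  refine le_trans (Nat.cast_le.2 (card_le_card fun m hm => ?_)) h1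
  rw [mem_filter] at hm ⊢
  refine ⟨hm.1, fun hall => hm.2 ?_⟩
  intro hm0 h x₁ x₂ hh hx1 hx12 hx2
  have hx2' : 0 ≤ x₂ := hx1.trans hx12
  have hh0 : 0 ≤ h := by linarith
  -- the point of the net
  obtain ⟨a1, b1⟩ := floor_close x₁ hx1 M hM0
  obtain ⟨a2, b2⟩ := floor_close x₂ hx2' M hM0
  obtain ⟨a3, b3⟩ := floor_close h hh0 M hM0
  have hbd : ∀ y : ℝ, 0 ≤ y → y ≤ 4 * N → ⌊y * M⌋₊ ∈ range (4 * N ^ 4 + 1) := by
    intro y hy0 hy
    rw [mem_range, Nat.lt_succ_iff]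
    refine Nat.floor_le_of_le ?_
    push_cast
    calc y * M ≤ 4 * N * (N : ℝ) ^ 3 := mul_le_mul_of_nonneg_right hy (by positivity)
      _ = 4 * (N : ℝ) ^ 4 := by ring
  have ht : (⌊x₁ * M⌋₊, ⌊x₂ * M⌋₊, ⌊h * M⌋₊) ∈ T := by
    rw [hT, mem_product, mem_product]
    exact ⟨hbd x₁ hx1 (by linarith), hbd x₂ hx2' (by linarith), hbd h hh0 (by linarith)⟩
  have hnet := hall _ ht
  simp only at hnet
  set y₁ : ℝ := (⌊x₁ * M⌋₊ : ℕ) / M with hy₁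
  set y₂ : ℝ := (⌊x₂ * M⌋₊ : ℕ) / M with hy₂
  set h' : ℝ := (⌊h * M⌋₊ : ℕ) / M with hh'
  have hy12 : y₁ ≤ y₂ := by
    rw [hy₁, hy₂]
    exact div_le_div_of_nonneg_right (Nat.cast_le.2 (Nat.floor_mono (mul_le_mul_of_nonneg_right hx12 hM0.le))) hM0.le
  have hy2 : 0 ≤ y₂ := by positivity
  have hh'0 : 0 ≤ h' := by positivity
  have h1M : 1 / M ≤ 1 := by
    rw [div_le_one hM0]
    exact hM1
  have hlog : 0 ≤ Real.log N := Real.log_nonneg hNR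
  set R : ℝ := x₂ - x₁ + h with hR
  have hR1 : 1 ≤ R := by linarith
  -- the second moment of the coefficients at the net point
  have hV : ∑ x ∈ prs N, (co g.1 x * kap y₁ y₂ h' x) ^ 2 ≤ 12 * Real.log N ^ 4 * (h ^ 2 * (h * R)) := by
    have e1 : ∑ x ∈ prs N, (co g.1 x * kap y₁ y₂ h' x) ^ 2 =
        ∑ x ∈ (prs N).filter (fun t => kap y₁ y₂ h' t ≠ 0), (co g.1 x * kap y₁ y₂ h' x) ^ 2 := by
      rw [sum_filter]
      refine sum_congr rfl fun x _ => ?_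
      by_cases hk0 : kap y₁ y₂ h' x = 0
      · rw [if_neg (not_not.2 hk0), hk0]
        ring
      · rw [if_pos hk0]
    have e2 : ∀ x ∈ (prs N).filter (fun t => kap y₁ y₂ h' t ≠ 0),
        (co g.1 x * kap y₁ y₂ h' x) ^ 2 ≤ 4 * Real.log N ^ 4 * h ^ 2 := by
      intro x hx
      have hx' := mem_filter.1 hx
      have f1 := co_le g.1 g.2 N x hx'.1
      have f2 : kap y₁ y₂ h' x ≤ h := (kap_le y₁ y₂ h' hh'0 x (mem_filter.1 hx'.1).2.le).trans b3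
      rw [mul_pow, ← sq_abs (co g.1 x)]
      calc |co g.1 x| ^ 2 * kap y₁ y₂ h' x ^ 2 ≤ (2 * Real.log N ^ 2) ^ 2 * h ^ 2 := by
            refine mul_le_mul (pow_le_pow_left₀ (abs_nonneg _) f1 2)
              (pow_le_pow_left₀ (kap_nonneg _ _ _ _) f2 2) (by positivity) (by positivity)
        _ = 4 * Real.log N ^ 4 * h ^ 2 := by ring
    have e3 := count_pairs N y₁ y₂ h' hy12 hy2 hh'0
    have e4 : (y₂ - y₁ + h' + 1) * h' ≤ 3 * R * h := by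
      refine mul_le_mul ?_ b3 hh'0 (by linarith)
      rw [abs_le] at a1
      linarith
    rw [e1]
    calc ∑ x ∈ (prs N).filter (fun t => kap y₁ y₂ h' t ≠ 0), (co g.1 x * kap y₁ y₂ h' x) ^ 2 ≤
          ∑ _x ∈ (prs N).filter (fun t => kap y₁ y₂ h' t ≠ 0), 4 * Real.log N ^ 4 * h ^ 2 := sum_le_sum e2
      _ = ((prs N).filter (fun t => kap y₁ y₂ h' t ≠ 0)).card * (4 * Real.log N ^ 4 * h ^ 2) := by
          rw [sum_const, nsmul_eq_mul]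
      _ ≤ 3 * R * h * (4 * Real.log N ^ 4 * h ^ 2) :=
          mul_le_mul_of_nonneg_right (e3.trans e4) (by positivity)
      _ = 12 * Real.log N ^ 4 * (h ^ 2 * (h * R)) := by ring
  set Λ : ℝ := (N : ℝ) ^ ((E : ℝ) / k) with hΛ
  have hΛ1 : 1 ≤ Λ := Real.one_le_rpow hNR (by positivity)
  have hsΛ1 : 1 ≤ √Λ := by
    rw [show (1 : ℝ) = √1 from Real.sqrt_one.symm]
    exact Real.sqrt_le_sqrt hΛ1
  have hhR : 0 ≤ h * R := by positivity
  have hhR1 : 1 ≤ √(h * R) := by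
    rw [show (1 : ℝ) = √1 from Real.sqrt_one.symm]
    refine Real.sqrt_le_sqrt ?_
    nlinarith
  set Z : ℝ := √Λ * k * Real.log N ^ 2 * (h * √(h * R)) with hZ
  have hZ0 : 0 ≤ Z := by positivity
  have hZ1 : Real.log N ^ 2 ≤ Z := by
    rw [hZ]
    have e1 : 1 ≤ h * √(h * R) := one_le_mul_of_one_le_of_one_le hh hhR1
    have e2 : 1 ≤ √Λ * k := one_le_mul_of_one_le_of_one_le hsΛ1 hkR
    calc Real.log N ^ 2 = 1 * Real.log N ^ 2 * 1 := by ring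
      _ ≤ √Λ * k * Real.log N ^ 2 * (h * √(h * R)) := by gcongr
  set s : ℝ := ∑ x ∈ prs N, co g.1 x * kap y₁ y₂ h' x * (jacobiSym ((x.1 * x.2 : ℕ) : ℤ) m : ℝ) with hs
  have hs1 : |s| ≤ 14 * Z := by
    refine abs_le_of_sq_le_sq ?_ (by positivity)
    calc s ^ 2 ≤ Λ * (16 * (k : ℝ) ^ 2 * ∑ x ∈ prs N, (co g.1 x * kap y₁ y₂ h' x) ^ 2) := hnet
      _ ≤ Λ * (16 * (k : ℝ) ^ 2 * (12 * Real.log N ^ 4 * (h ^ 2 * (h * R)))) := by gcongr
      _ = 192 * (Λ * (k : ℝ) ^ 2 * Real.log N ^ 4 * (h ^ 2 * (h * R))) := by ring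
      _ ≤ 196 * (Λ * (k : ℝ) ^ 2 * Real.log N ^ 4 * (h ^ 2 * (h * R))) := by
          have : 0 ≤ Λ * (k : ℝ) ^ 2 * Real.log N ^ 4 * (h ^ 2 * (h * R)) := by positivity
          linarith
      _ = (14 * Z) ^ 2 := by
          rw [hZ, mul_pow, mul_pow, mul_pow, mul_pow, mul_pow h, Real.sq_sqrt (by linarith), Real.sq_sqrt hhR]
          ring
  -- the distance to the net
  have hdiff : |(∫ x in x₁..x₂, (‖S g.1 m h x‖ ^ 2 - Q g.1 m h x)) - s| ≤ 4 * Real.log N ^ 2 := by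
    rw [integral_eq g.1 m hm0 h x₁ x₂ hx12 N hx2, hs, ← sum_sub_distrib]
    have e1 : ∀ x ∈ prs N, |co g.1 x * kap x₁ x₂ h x * (jacobiSym ((x.1 * x.2 : ℕ) : ℤ) m : ℝ) -
        co g.1 x * kap y₁ y₂ h' x * (jacobiSym ((x.1 * x.2 : ℕ) : ℤ) m : ℝ)| ≤
        2 * Real.log N ^ 2 * (2 * (1 / M)) := by
      intro x hx
      rw [← sub_mul, ← mul_sub, abs_mul, abs_mul]
      have f1 := co_le g.1 g.2 N x hx
      have f2 := kap_lip x₁ x₂ h y₁ y₂ h' (1 / M) a1 a2 a3 x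
      have f3 : |(jacobiSym ((x.1 * x.2 : ℕ) : ℤ) m : ℝ)| ≤ 1 := by
        rcases jacobiSym.trichotomy ((x.1 * x.2 : ℕ) : ℤ) m with h0 | h0 | h0 <;> rw [h0] <;> norm_num
      calc |co g.1 x| * |kap x₁ x₂ h x - kap y₁ y₂ h' x| * |(jacobiSym ((x.1 * x.2 : ℕ) : ℤ) m : ℝ)| ≤
            2 * Real.log N ^ 2 * (2 * (1 / M)) * 1 := by
              refine mul_le_mul (mul_le_mul f1 f2 (abs_nonneg _) (by positivity)) f3 (abs_nonneg _) (by positivity)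
        _ = _ := mul_one _
    refine (abs_sum_le_sum_abs _ _).trans ((sum_le_sum e1).trans ?_)
    rw [sum_const, nsmul_eq_mul]
    have e2 : ((prs N).card : ℝ) ≤ (N : ℝ) ^ 2 := by
      have h1 : (prs N).card ≤ N ^ 2 := by
        have hsub : prs N ⊆ (Icc 1 N) ×ˢ (Icc 1 N) := by
          intro x hx
          unfold prs at hx
          rw [mem_filter, mem_product, mem_filter, mem_filter, mem_range, mem_range] at hx
          rw [mem_product, mem_Icc, mem_Icc]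
          have h1 := hx.1.1.2.pos
          have h2 := hx.1.2.2.pos
          omega
        refine (card_le_card hsub).trans ?_
        rw [card_product, Nat.card_Icc, Nat.add_sub_cancel, sq]
      exact_mod_cast h1
    calc ((prs N).card : ℝ) * (2 * Real.log N ^ 2 * (2 * (1 / M))) ≤
          (N : ℝ) ^ 2 * (2 * Real.log N ^ 2 * (2 * (1 / M))) := mul_le_mul_of_nonneg_right e2 (by positivity)
      _ = 4 * Real.log N ^ 2 * (1 / N) := by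
          rw [hM]
          field_simp
          ring
      _ ≤ 4 * Real.log N ^ 2 * 1 := by
          refine mul_le_mul_of_nonneg_left ?_ (by positivity)
          rw [div_le_one hN0]
          exact hNR
      _ = 4 * Real.log N ^ 2 := mul_one _
  have hfin : |∫ x in x₁..x₂, (‖S g.1 m h x‖ ^ 2 - Q g.1 m h x)| ≤
      |(∫ x in x₁..x₂, (‖S g.1 m h x‖ ^ 2 - Q g.1 m h x)) - s| + |s| := by
    calc |∫ x in x₁..x₂, (‖S g.1 m h x‖ ^ 2 - Q g.1 m h x)| =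
          |((∫ x in x₁..x₂, (‖S g.1 m h x‖ ^ 2 - Q g.1 m h x)) - s) + s| := by rw [sub_add_cancel]
      _ ≤ _ := abs_add_le _ _
  linarith

open Classical in
/-- **Theorem.** -/
theorem result (B : ℕ) :
    (∀ ε : ℝ, 0 < ε → ∃ (A : ℕ) (Y₀ : ℝ), ∀ g : ℕ → ℂ, (∀ n, ‖g n‖ ≤ 1) → ∀ (P : ℕ) (Y : ℝ), Y₀ ≤ Y →
      ((((range (P + 1)).filter fun m => Odd m ∧ ¬ ∀ X : ℝ, Y ≤ X → X ^ A ≤ P → Power g ε X m).card : ℕ) : ℝ) ≤
        P / Y ^ B) ∧
    (∃ C Y₀ : ℝ, ∀ g : ℕ → ℂ, (∀ n, ‖g n‖ ≤ 1) → ∀ (P : ℕ) (Y : ℝ), Y₀ ≤ Y →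
      ((((range (P + 1)).filter fun m => Odd m ∧ ¬ ∀ X : ℝ, Y ≤ X → 7 * Real.log X ^ 2 ≤ Real.log P →
        Sharp g C X m).card : ℕ) : ℝ) ≤ P / Y ^ B) := by
  obtain ⟨E, H1, Y₂, hY₂, H2⟩ := two_uses 6 (by norm_num) Good good_all B
  refine ⟨fun ε hε => ?_, ?_⟩
  · obtain ⟨K, hK⟩ := exists_nat_ge (max 1 (E / ε))
    have hK1 : (1 : ℝ) ≤ K := (le_max_left _ _).trans hK
    have hK1' : 1 ≤ K := by exact_mod_cast hK1
    have hKE : (E : ℝ) / K ≤ ε := by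
      have h1 : (E : ℝ) / ε ≤ K := (le_max_right _ _).trans hK
      rw [div_le_iff₀ hε] at h1
      rw [div_le_iff₀ (by linarith)]
      linarith
    obtain ⟨X₁, hX₁⟩ : ∃ X₁ : ℝ, ∀ X : ℝ, X₁ ≤ X → 18 * K * Real.log X ^ 2 ≤ X ^ (ε / 2) := by
      have h1 := isLittleO_log_rpow_atTop (show 0 < ε / 4 by positivity)
      have h2 := h1.bound (show 0 < 1 / (18 * (K : ℝ)) by positivity)
      obtain ⟨X₁, hX₁⟩ := Filter.eventually_atTop.1 h2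
      refine ⟨max X₁ 1, fun X hX => ?_⟩
      have h3 := hX₁ X ((le_max_left _ _).trans hX)
      have hX1 : 1 ≤ X := (le_max_right _ _).trans hX
      have hX0 : 0 < X := by linarith
      rw [Real.norm_of_nonneg (Real.log_nonneg hX1), Real.norm_of_nonneg (by positivity), div_mul_eq_mul_div,
        one_mul, le_div_iff₀ (by positivity)] at h3
      have h4 : X ^ (ε / 4) * X ^ (ε / 4) = X ^ (ε / 2) := by
        rw [← Real.rpow_add hX0]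
        congr 1
        ring
      rw [← h4]
      have h5 : 0 ≤ Real.log X := Real.log_nonneg hX1
      have h6 : Real.log X ≤ X ^ (ε / 4) := by
        refine le_trans ?_ h3
        nlinarith
      calc 18 * K * Real.log X ^ 2 = (Real.log X * (18 * K)) * Real.log X := by ring
        _ ≤ X ^ (ε / 4) * X ^ (ε / 4) := mul_le_mul h3 h6 h5 (by positivity)
    obtain ⟨Y₁, H1⟩ := H1 K hK1'
    refine ⟨6 * K + 1, max Y₁ (max X₁ 1), fun g hg P Y hY => ?_⟩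
    have a1 : Y₁ ≤ Y := (le_max_left _ _).trans hY
    have a2 : X₁ ≤ Y := (le_max_left _ _).trans ((le_max_right _ _).trans hY)
    have a3 : 1 ≤ Y := (le_max_right _ _).trans ((le_max_right _ _).trans hY)
    refine le_trans (Nat.cast_le.2 (card_le_card fun m hm => ?_)) (H1 ⟨g, hg⟩ P Y a1)
    rw [mem_filter] at hm ⊢
    refine ⟨hm.1, hm.2.1, fun hall => hm.2.2 fun X hX hXP => ?_⟩
    intro h x₁ x₂ hh hx1 hx12 hx2
    have hX1 : 1 ≤ X := a3.trans hX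
    have hX0 : 0 < X := by linarith
    have h1 := hall X hX hXP (fun h => by rw [h] at hm; exact absurd hm.2.1 (by decide)) h x₁ x₂ hh hx1 hx12
      (lt_of_le_of_lt hx2 (Nat.lt_floor_add_one X))
    have hN1 : 1 ≤ ⌊X⌋₊ := Nat.le_floor (by exact_mod_cast hX1)
    have hN0 : (0 : ℝ) < (⌊X⌋₊ : ℕ) := by exact_mod_cast hN1
    have hlN : 0 ≤ Real.log (⌊X⌋₊ : ℕ) := Real.log_natCast_nonneg _
    have hlX : Real.log (⌊X⌋₊ : ℕ) ≤ Real.log X := Real.log_le_log hN0 (Nat.floor_le hX0.le)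
    have hN : √((((⌊X⌋₊ : ℕ) : ℝ)) ^ ((E : ℝ) / K)) ≤ X ^ (ε / 2) := by
      have e1 : (((⌊X⌋₊ : ℕ) : ℝ)) ^ ((E : ℝ) / K) ≤ X ^ ε :=
        (Real.rpow_le_rpow (Nat.cast_nonneg _) (Nat.floor_le hX0.le) (by positivity)).trans
          (Real.rpow_le_rpow_of_exponent_le hX1 hKE)
      refine (Real.sqrt_le_sqrt e1).trans (le_of_eq ?_)
      rw [show X ^ ε = (X ^ (ε / 2)) ^ 2 by
        rw [← Real.rpow_natCast, ← Real.rpow_mul hX0.le]
        congr 1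
        push_cast
        ring]
      exact Real.sqrt_sq (by positivity)
    have hR0 : 0 ≤ h * √(h * (x₂ - x₁ + h)) := by positivity
    set R := h * √(h * (x₂ - x₁ + h)) with hR
    refine h1.trans ?_
    calc 18 * (√((((⌊X⌋₊ : ℕ) : ℝ)) ^ ((E : ℝ) / K)) * K * Real.log (⌊X⌋₊ : ℕ) ^ 2 * R) ≤
          18 * (X ^ (ε / 2) * K * Real.log X ^ 2 * R) := by gcongr
      _ = (18 * K * Real.log X ^ 2) * X ^ (ε / 2) * R := by ring
      _ ≤ X ^ (ε / 2) * X ^ (ε / 2) * R := by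
          refine mul_le_mul_of_nonneg_right ?_ hR0
          exact mul_le_mul_of_nonneg_right (hX₁ X (a2.trans hX)) (by positivity)
      _ = X ^ ε * R := by rw [← Real.rpow_add hX0, add_halves]
  · refine ⟨18 * Real.exp E, Y₂, fun g hg P Y hY => ?_⟩
    refine le_trans (Nat.cast_le.2 (card_le_card fun m hm => ?_)) (H2 ⟨g, hg⟩ P Y hY)
    rw [mem_filter] at hm ⊢
    refine ⟨hm.1, hm.2.1, fun hall => hm.2.2 fun X hX hXP => ?_⟩
    intro h x₁ x₂ hh hx1 hx12 hx2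
    have hX16 : 16 ≤ X := hY₂.trans (hY.trans hX)
    have hX0 : 0 < X := by linarith
    have hXP' : (((6 : ℕ) : ℝ) + 1) * Real.log X ^ 2 ≤ Real.log P := by
      refine le_trans (le_of_eq ?_) hXP
      norm_num
    have h1 := hall X hX hXP' (fun h => by rw [h] at hm; exact absurd hm.2.1 (by decide)) h x₁ x₂ hh hx1 hx12
      (lt_of_le_of_lt hx2 (Nat.lt_floor_add_one X))
    have hN16 : 16 ≤ ⌊X⌋₊ := Nat.le_floor (by exact_mod_cast hX16)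
    obtain ⟨f1, f2, f3⟩ := pow_floor E ⌊X⌋₊ hN16
    have hN0 : (0 : ℝ) < (⌊X⌋₊ : ℕ) := by
      have : 0 < ⌊X⌋₊ := by omega
      exact_mod_cast this
    have hlX : Real.log (⌊X⌋₊ : ℕ) ≤ Real.log X := Real.log_le_log hN0 (Nat.floor_le hX0.le)
    have hlX0 : 0 ≤ Real.log X := Real.log_nonneg (by linarith)
    have hlN : 0 ≤ Real.log (⌊X⌋₊ : ℕ) := Real.log_natCast_nonneg _
    have hR0 : 0 ≤ h * √(h * (x₂ - x₁ + h)) := by positivity
    set R := h * √(h * (x₂ - x₁ + h)) with hR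
    have f4 : √((((⌊X⌋₊ : ℕ) : ℝ)) ^ ((E : ℝ) / (⌊Real.log (⌊X⌋₊ : ℕ)⌋₊ : ℕ))) ≤ Real.exp E := by
      refine (Real.sqrt_le_sqrt f3).trans (le_of_eq ?_)
      exact Real.sqrt_sq (Real.exp_pos _).le
    have f5 : (((⌊Real.log (⌊X⌋₊ : ℕ)⌋₊ : ℕ) : ℝ)) ≤ Real.log X := f2.trans hlX
    refine h1.trans ?_
    calc 18 * (√((((⌊X⌋₊ : ℕ) : ℝ)) ^ ((E : ℝ) / (⌊Real.log (⌊X⌋₊ : ℕ)⌋₊ : ℕ))) *
          (⌊Real.log (⌊X⌋₊ : ℕ)⌋₊ : ℕ) * Real.log (⌊X⌋₊ : ℕ) ^ 2 * R) ≤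
          18 * (Real.exp E * Real.log X * Real.log X ^ 2 * R) := by gcongr
      _ = 18 * Real.exp E * (Real.log X ^ 3 * R) := by ring

end Pool.Agent.Results.MP_2a816b_nt.QuadraticTwists
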