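import Pool.Agent.Q260.GM.We
import Pool.Agent.Q260.GM.Xj

/-!
# The upper half of the variance asymptotics decides: primes in short intervals, the Riemann hypothesis and
# the zeros of zeta

No hypothesis is assumed.  Put
`V T a b = (T / log² T) ∫_{T^a}^{T^b} (ψ(x + x/T) - ψ(x) - x/T)² dx / x²`,
the normalised variance of the primes in the intervals of length `H = x / T`, `T^a ≤ x ≤ T^b`. The expected formula
`H log (x / H) = (x / T) log T` for the variance gives the value `b - a` (`1 ≤ a < b`).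

(1) Windows: `limsup V T a b ≤ b - a` for all `1 ≤ a < b` is equivalent to `V T a b → b - a` for all `1 ≤ a < b`, and to
(Riemann hypothesis and pair correlation conjecture). It implies `V T a b → ∫_a^b min(α, 1) dα` for all `0 < a < b`.
(2) Long averages: `V T 1 b ≤ (1 + o(1)) b` (`T → ∞`, then `b → ∞`) is equivalent to `V T 1 b = (1 + o(1)) b`, and to the
Riemann hypothesis and essential simplicity (almost no pairs of zeros at distance `o(1)` mean spacings besides the diagonal).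
(3) Order of magnitude: the Riemann hypothesis holds if and only if `V T 1 b ≤ C b` for some `C`, all `b ≥ 1`, `T ≥ T₀(b)`.
(4) Stability: the upper bound in (2) with an additional constant factor `1 + η` implies the Riemann hypothesis, and that all but
the proportion `9η/4` of the zeros are simple.
-/

open Filter Topology

namespace Pool.Agent.Results.MP_2a816b_nt.UpperHalfDecides

/-- the nontrivial zeros of `ζ` with ordinate in `[0, T]` -/
def zeros (T : ℝ) : Set ℂ :=
  {s : ℂ | riemannZeta s = 0 ∧ 0 < s.re ∧ s.re < 1 ∧ 0 ≤ s.im ∧ s.im ≤ T}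

/-- the multiplicity of a zero -/
noncomputable def mult (s : ℂ) : ℕ := analyticOrderNatAt riemannZeta s

/-- the number of ordered pairs of zeros with ordinates in `[0, T]`, counted with multiplicity, whose normalised difference
of ordinates lies in `[α, β]` -/
noncomputable def N (T α β : ℝ) : ℕ :=
  ∑ᶠ p ∈ {p : ℂ × ℂ | p.1 ∈ zeros T ∧ p.2 ∈ zeros T ∧
    α ≤ (p.1.im - p.2.im) * Real.log T / (2 * Real.pi) ∧
    (p.1.im - p.2.im) * Real.log T / (2 * Real.pi) ≤ β}, mult p.1 * mult p.2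

/-- the number of ordered pairs of zeros, counted with multiplicity, the diagonal included, whose ordinates differ by at
most `β` times the mean spacing -/
noncomputable def P (T β : ℝ) : ℕ :=
  ∑ᶠ p ∈ {p : ℂ × ℂ | p.1 ∈ zeros T ∧ p.2 ∈ zeros T ∧
    |p.1.im - p.2.im| * Real.log T / (2 * Real.pi) ≤ β}, mult p.1 * mult p.2

/-- the pair correlation function -/
noncomputable def F (u : ℝ) : ℝ := 1 - (Real.sin (Real.pi * u) / (Real.pi * u)) ^ 2

/-- the normalisation `(T / 2π) log T`, the expected number of zeros -/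
noncomputable def X (T : ℝ) : ℝ := T * Real.log T / (2 * Real.pi)

/-- the number of nontrivial zeros with ordinate in `(0, T]` and property `A`, counted with multiplicity -/
noncomputable def Num (A : ℂ → Prop) (T : ℝ) : ℕ :=
  ∑ᶠ s ∈ {s : ℂ | s ∈ {s : ℂ | riemannZeta s = 0 ∧ 0 < s.re ∧ s.re < 1} ∧ 0 < s.im ∧ s.im ≤ T ∧
    A s}, mult s

/-- the pair correlation conjecture -/
def PairCorrelation : Prop := ∀ α β : ℝ, 0 < α → α < β →
  Tendsto (fun T => (N T α β : ℝ) / (X T * ∫ u in α..β, F u)) atTop (𝓝 1)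

/-- essential simplicity of the zeros -/
def EssentiallySimple : Prop :=
  ∀ ε : ℝ, 0 < ε → ∃ β : ℝ, 0 < β ∧ ∀ᶠ T : ℝ in atTop, (P T β : ℝ) ≤ (1 + ε) * X T

/-- the normalised variance of the primes in the intervals `(x, x + x / T]`, `T ^ a ≤ x ≤ T ^ b`; `Chebyshev.psi` is
Chebyshev's function `ψ` -/
noncomputable def V (T a b : ℝ) : ℝ := T / Real.log T ^ 2 * ∫ x in (T ^ a)..(T ^ b),
  (Chebyshev.psi (x + x / T) - Chebyshev.psi x - x / T) ^ 2 / x ^ 2

/-- the upper half of the asymptotic formula in all windows -/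
def UpperWindows : Prop := ∀ a b : ℝ, 1 ≤ a → a < b → ∀ ε : ℝ, 0 < ε → ∀ᶠ T : ℝ in atTop, V T a b ≤ b - a + ε

/-- the asymptotic formula in all windows -/
def AsympWindows : Prop := ∀ a b : ℝ, 1 ≤ a → a < b → Tendsto (fun T => V T a b) atTop (𝓝 (b - a))

/-- `V T 1 b ≤ (1 + η + o(1)) b`, `T → ∞`, then `b → ∞` -/
def UpperMean (η : ℝ) : Prop := ∀ ε : ℝ, 0 < ε → ∃ b₀ : ℝ, ∀ b : ℝ, b₀ ≤ b → ∀ᶠ T : ℝ in atTop,
  V T 1 b ≤ (1 + η + ε) * b

/-- `V T 1 b ~ b`, `T → ∞`, then `b → ∞` -/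
def AsympMean : Prop := ∀ ε : ℝ, 0 < ε → ∃ b₀ : ℝ, ∀ b : ℝ, b₀ ≤ b → ∀ᶠ T : ℝ in atTop,
  |V T 1 b - b| ≤ ε * b

/-- Without hypothesis: the four statements of the introduction. -/
theorem result :
    ((UpperWindows ↔ AsympWindows) ∧ (UpperWindows ↔ RiemannHypothesis ∧ PairCorrelation) ∧
      (UpperWindows → ∀ a b : ℝ, 0 < a → a < b → Tendsto (fun T => V T a b) atTop (𝓝 (∫ α in a..b, min α 1)))) ∧
    ((UpperMean 0 ↔ AsympMean) ∧ (UpperMean 0 ↔ RiemannHypothesis ∧ EssentiallySimple)) ∧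
    (RiemannHypothesis ↔ ∃ C : ℝ, ∀ b : ℝ, 1 ≤ b → ∀ᶠ T : ℝ in atTop, V T 1 b ≤ C * b) ∧
    ∀ η : ℝ, 0 ≤ η → UpperMean η → RiemannHypothesis ∧
      ∀ ε : ℝ, 0 < ε → ∀ᶠ T : ℝ in atTop,
        (Num (fun s => s.re ≠ 1 / 2 ∨ deriv riemannZeta s = 0) T : ℝ) ≤
          (9 / 4 * η + ε) * Num (fun _ => True) T := by
  obtain ⟨h1, h2, h3⟩ := Pool.Agent.Q260.GM.main
  obtain ⟨g1, g2, g3, g4⟩ := Pool.Agent.Q260.GM.av_main
  have e1 : UpperWindows ↔ RiemannHypothesis ∧ PairCorrelation := h1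
  have e2 : AsympWindows ↔ RiemannHypothesis ∧ PairCorrelation := h2
  have e3 : UpperMean 0 ↔ RiemannHypothesis ∧ EssentiallySimple := g3
  have e4 : AsympMean ↔ RiemannHypothesis ∧ EssentiallySimple := g4
  refine ⟨⟨e1.trans e2.symm, e1, h3⟩, ⟨e3.trans e4.symm, e3⟩, g1, fun η hη h => ?_⟩
  obtain ⟨k1, -, k3⟩ := g2 η hη h
  exact ⟨k1, k3⟩

end Pool.Agent.Results.MP_2a816b_nt.UpperHalfDecides
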